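import Pool.Agent.V1145.NC8
import Pool.Agent.TH215.TM.Asm
import Pool.Agent.TH182.J302

/-!
# A Gorenstein threefold with a crepant resolution and without a non-commutative one

Let `R = ℂ[x, y, z, w] / (w⁴ + x³ + y³ + z³)`, a normal Gorenstein domain of dimension three and
of finite type over `ℂ`. The blow-up of the origin is a crepant resolution of `Spec R`. Every
finitely generated reflexive `R`-module `M` with `End_R(M)` maximal Cohen-Macaulay is projective,
so that the localization of `End_R(M)` in the origin has infinite global dimension if `M ≠ 0`.
Hence `R` has no non-commutative crepant resolution.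
-/

set_option autoImplicit false
set_option backward.isDefEq.respectTransparency.types true

open CategoryTheory Limits AlgebraicGeometry Abelian
open Pool.Agent.Helper165 Pool.Agent.TH215.TM Pool.Agent.V1145.NC

namespace Pool.Agent.Results.MP_edf92a_ag.CrepantNoNCCR

/-- `R` is a normal Gorenstein domain of dimension three, of finite type over `ℂ`. Gorenstein
means that `R` has finite injective dimension over itself (here at most three). -/
structure IsNormalGorensteinThreefold (R : Type) [CommRing R] [Algebra ℂ R] : Prop where
  domain : IsDomain R
  normal : IsIntegrallyClosed R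
  gorenstein : HasInjectiveDimensionLT (ModuleCat.of R R) 4
  dim : ringKrullDim R = 3
  finiteType : Algebra.FiniteType ℂ R

/-- `Spec R` has a crepant resolution: there is an integral scheme `Y` with a morphism to
`Spec R` which is a crepant resolution of the threefold `Spec R`. -/
def HasCrepantResolution (R : Type) [CommRing R] [Algebra ℂ R] : Prop :=
  ∃ (Y : Scheme.{0}) (_ : IsIntegral Y) (f : Y ⟶ Spec (CommRingCat.of R)),
    IsCrepantResolution 3 f (Spec.map (CommRingCat.ofHom (algebraMap ℂ R)))

/-- `End_R(M)` is a non-commutative crepant resolution of `R`: the `R`-module `M` is nonzero,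
finitely generated and reflexive, `Λ = End_R(M)` is maximal Cohen-Macaulay as an `R`-module, and
`gldim Λ_p = dim R_p` for every prime `p` of `R`. -/
structure IsNCCR (R : Type) [CommRing R] (M : Type) [AddCommGroup M] [Module R M] : Prop where
  nontrivial : Nontrivial M
  finite : Module.Finite R M
  reflexive : Module.IsReflexive R M
  cohenMacaulay : IsCM R (Module.End R M)
  gldim_eq : ∀ (p : Ideal R) [p.IsPrime],
    gldim (LocalizedModule p.primeCompl (Module.End R M)) = ringKrullDim (Localization.AtPrime p)

/-- `R` has a non-commutative crepant resolution. -/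
def HasNCCR (R : Type) [CommRing R] : Prop :=
  ∃ (M : Type) (_ : AddCommGroup M) (_ : Module R M), IsNCCR R M

/-- The normal Gorenstein threefold `R = ℂ[x, y, z, w] / (w⁴ + x³ + y³ + z³)` has a crepant
resolution, but no non-commutative crepant resolution. -/
theorem result :
    IsNormalGorensteinThreefold RR ∧ HasCrepantResolution RR ∧ ¬ HasNCCR RR := by
  have hR := Pool.Agent.TH480.J295.isDomain_RR
  have hB := Pool.Agent.TH480.J295.isDomain_BB
  have hY : IsIntegral YY := Pool.Agent.TH480.J303.YY_integral
  refine ⟨?_, ⟨YY, hY, ff, ?_⟩, ?_⟩
  · exact
      { domain := hR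
        normal := Pool.Agent.TH480.J296.integrallyClosed_RR
        gorenstein := gorenstein_RR
        dim := Pool.Agent.TH480.J296.dim_RR
        finiteType := Algebra.FiniteType.trans (S := S3) inferInstance inferInstance }
  · exact
      { smooth := Pool.Agent.TH480.J303.ff_smooth Pool.Agent.TH480.J298.BB_smooth
          Pool.Agent.TH480.J297.chartW Pool.Agent.TH480.J297.chartX
        proper := Pool.Agent.TH480.J303.ff_proper
        birational := Pool.Agent.TH480.J303.ff_birational
        crepant := Pool.Agent.TH182.TMC.crepant Pool.Agent.TH480.J297.chartW
          Pool.Agent.TH480.J297.chartX }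
  · rintro ⟨M, _, _, hM⟩
    have := hM.nontrivial
    have := hM.finite
    exact gldim_ne M hM.reflexive hM.cohenMacaulay (hM.gldim_eq m0)

end Pool.Agent.Results.MP_edf92a_ag.CrepantNoNCCR
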